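import Pool.Agent.Helper47.UG.Stmts

set_option autoImplicit false

/-!
Module FNL of the project UG: the theorem in the plane.
-/

namespace Pool.Agent.Helper44.UG

open Finset
open scoped Classical
open Pool.Agent.Helper37.DG (box)
open Pool.Agent.Helper47.UG

/-- the square of the distance of two points of the lattice -/
theorem fnl_dist (o α β : ℂ) (v w : ℤ × ℤ) :
    dist (o + (v.1 : ℂ) * α + (v.2 : ℂ) * β) (o + (w.1 : ℂ) * α + (w.2 : ℂ) * β) ^ 2 =
      Fm (‖α‖ ^ 2) (2 * (α.re * β.re + α.im * β.im)) (‖β‖ ^ 2) (v - w) := by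
  unfold Fm
  rw [dist_eq_norm, ← Complex.normSq_eq_norm_sq, ← Complex.normSq_eq_norm_sq,
    ← Complex.normSq_eq_norm_sq, Complex.normSq_apply, Complex.normSq_apply, Complex.normSq_apply]
  simp only [Complex.sub_re, Complex.add_re, Complex.mul_re, Complex.intCast_re,
    Complex.intCast_im, Complex.sub_im, Complex.add_im, Complex.mul_im, Prod.fst_sub, Prod.snd_sub]
  push_cast
  ring

/-- the number of distances dominates the number of values of the form -/
theorem fnl_count (o α β : ℂ) (P G : Finset ℂ) (hGP : G ⊆ P) (f : ℂ → ℤ × ℤ)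
    (hfg : ∀ g ∈ G, g = o + ((f g).1 : ℂ) * α + ((f g).2 : ℂ) * β) :
    cF (‖α‖ ^ 2) (2 * (α.re * β.re + α.im * β.im)) (‖β‖ ^ 2) (G.image f) ≤
      (P.offDiag.image (fun u => dist u.1 u.2)).card := by
  unfold cF
  have h3 : ((G.image f).offDiag.image (fun u =>
        Fm (‖α‖ ^ 2) (2 * (α.re * β.re + α.im * β.im)) (‖β‖ ^ 2) (u.1 - u.2))) ⊆
        (P.offDiag.image (fun u => dist u.1 u.2)).image (fun x => x ^ 2) := by
    intro m hm
    obtain ⟨⟨v, w⟩, hvw, rfl⟩ := Finset.mem_image.1 hm
    rw [Finset.mem_offDiag] at hvw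
    obtain ⟨hv, hw, hne⟩ := hvw
    obtain ⟨a, ha, rfl⟩ := Finset.mem_image.1 hv
    obtain ⟨b, hb, rfl⟩ := Finset.mem_image.1 hw
    refine Finset.mem_image.2 ⟨dist a b, Finset.mem_image.2 ⟨(a, b), ?_, rfl⟩, ?_⟩
    · rw [Finset.mem_offDiag]
      refine ⟨hGP ha, hGP hb, fun hab => ?_⟩
      simp only at hab hne
      exact hne (by rw [hab])
    · simp only
      have h4 := fnl_dist o α β (f a) (f b)
      rw [← hfg a ha, ← hfg b hb] at h4
      exact h4
  exact le_trans (Finset.card_le_card h3) Finset.card_image_le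

/-- collinear generators -/
theorem fnl_collinear (α β : ℂ) (h : α.re * β.im - α.im * β.re = 0) :
    (α = 0 ∧ β = 0) ∨ ∃ (u : ℂ) (r s : ℝ), u ≠ 0 ∧ α = r * u ∧ β = s * u := by
  by_cases hα : α = 0
  · by_cases hβ : β = 0
    · exact Or.inl ⟨hα, hβ⟩
    · refine Or.inr ⟨β, 0, 1, hβ, ?_, ?_⟩
      · rw [hα]; simp
      · simp
  · refine Or.inr ⟨α, 1, (α.re * β.re + α.im * β.im) / (α.re ^ 2 + α.im ^ 2), hα, by simp, ?_⟩
    have hn : 0 < α.re ^ 2 + α.im ^ 2 := by
      have h1 : 0 ≤ α.re ^ 2 + α.im ^ 2 := by positivity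
      rcases h1.lt_or_eq with h2 | h2
      · exact h2
      · exfalso
        apply hα
        have h3 : α.re = 0 := by nlinarith [sq_nonneg α.re, sq_nonneg α.im]
        have h4 : α.im = 0 := by nlinarith [sq_nonneg α.re, sq_nonneg α.im]
        exact Complex.ext h3 h4
    apply Complex.ext
    · rw [Complex.re_ofReal_mul, div_mul_eq_mul_div, eq_div_iff hn.ne']
      linear_combination (-α.im) * h
    · rw [Complex.im_ofReal_mul, div_mul_eq_mul_div, eq_div_iff hn.ne']
      linear_combination (α.re) * h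

/-- the points of a line: at least `n - 1` distances -/
theorem fnl_line (o u : ℂ) (hu : u ≠ 0) (P G : Finset ℂ) (hGP : G ⊆ P) (t : ℂ → ℝ)
    (ht : ∀ g ∈ G, g = o + (t g : ℂ) * u) (hG : 2 ≤ G.card) :
    G.card ≤ 2 * (P.offDiag.image (fun u => dist u.1 u.2)).card := by
  obtain ⟨g₀, hg₀, hmin⟩ := Finset.exists_min_image G t (Finset.card_pos.1 (by omega))
  have hd : ∀ g ∈ G, dist g₀ g = (t g - t g₀) * ‖u‖ := by
    intro g hg
    rw [dist_comm, dist_eq_norm]
    have h1 : g - g₀ = ((t g - t g₀ : ℝ) : ℂ) * u := by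
      conv_lhs => rw [ht g hg, ht g₀ hg₀]
      push_cast
      ring
    rw [h1, norm_mul, Complex.norm_real, Real.norm_eq_abs, abs_of_nonneg]
    have := hmin g hg
    linarith
  have hinj : Set.InjOn (fun g => dist g₀ g) ((G.erase g₀ : Finset ℂ) : Set ℂ) := by
    intro a ha b hb hab
    have ha' : a ∈ G := Finset.mem_of_mem_erase (Finset.mem_coe.1 ha)
    have hb' : b ∈ G := Finset.mem_of_mem_erase (Finset.mem_coe.1 hb)
    simp only at hab
    rw [hd a ha', hd b hb'] at hab
    have hu' : ‖u‖ ≠ 0 := norm_ne_zero_iff.2 hu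
    have h2 := mul_right_cancel₀ hu' hab
    have h3 : t a = t b := by linarith
    rw [ht a ha', ht b hb', h3]
  have hsub : (G.erase g₀).image (fun g => dist g₀ g) ⊆
      P.offDiag.image (fun u => dist u.1 u.2) := by
    intro m hm
    obtain ⟨g, hg, rfl⟩ := Finset.mem_image.1 hm
    refine Finset.mem_image.2 ⟨(g₀, g), ?_, rfl⟩
    rw [Finset.mem_offDiag]
    exact ⟨hGP hg₀, hGP (Finset.mem_of_mem_erase hg), (Finset.ne_of_mem_erase hg).symm⟩
  have h1 := Finset.card_le_card hsub
  rw [Finset.card_image_of_injOn hinj, Finset.card_erase_of_mem hg₀] at h1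
  omega

theorem st_FNL (hC : ST_CMB) : ST_FNL := by
  intro δ hδ
  obtain ⟨c₀, hc₀, hmain⟩ := hC δ hδ
  refine ⟨min c₀ (1 / 2), by positivity, ?_⟩
  intro α β o N M D P G hD hdisc hGP hG hdens hG2
  have hm0 : 0 ≤ min 1 (Real.sqrt (Real.log D / Real.log G.card)) :=
    le_min (by norm_num) (Real.sqrt_nonneg _)
  have hm1 : min 1 (Real.sqrt (Real.log D / Real.log G.card)) ≤ 1 := min_le_left _ _
  have hG0 : (0 : ℝ) ≤ G.card := Nat.cast_nonneg _
  by_cases hdet : α.re * β.im - α.im * β.re = 0
  · -- collinear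
    have hfin : G.card ≤ 2 * (P.offDiag.image (fun u => dist u.1 u.2)).card := by
      rcases fnl_collinear α β hdet with ⟨h1, h2⟩ | ⟨u, r, s, hu, hr, hs⟩
      · exfalso
        have h3 : G ⊆ {o} := by
          intro g hg
          obtain ⟨x, y, _, _, hg'⟩ := hG g hg
          rw [h1, h2] at hg'
          rw [Finset.mem_singleton, hg']
          simp
        have h4 := Finset.card_le_card h3
        rw [Finset.card_singleton] at h4
        omega
      · choose! fx fy hfx hfy hf using hG
        refine fnl_line o u hu P G hGP (fun g => (fx g : ℝ) * r + (fy g : ℝ) * s) ?_ hG2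
        intro g hg
        conv_lhs => rw [hf g hg, hr, hs]
        push_cast
        ring
    have hfin' : (G.card : ℝ) ≤ 2 * ((P.offDiag.image (fun u => dist u.1 u.2)).card : ℝ) := by
      exact_mod_cast hfin
    have h5 : min c₀ (1 / 2) * (G.card : ℝ) * min 1 (Real.sqrt (Real.log D / Real.log G.card)) ≤
        1 / 2 * (G.card : ℝ) * 1 := by
      have h6 : min c₀ (1 / 2) * (G.card : ℝ) ≤ 1 / 2 * (G.card : ℝ) :=
        mul_le_mul_of_nonneg_right (min_le_right _ _) hG0
      exact mul_le_mul h6 hm1 hm0 (by positivity)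
    linarith
  · -- a lattice
    have hA : (0 : ℝ) < ‖α‖ ^ 2 := by
      have : α ≠ 0 := by
        intro h
        apply hdet
        rw [h]; simp
      have := norm_pos_iff.2 this
      positivity
    have hB : (0 : ℝ) < ‖β‖ ^ 2 := by
      have : β ≠ 0 := by
        intro h
        apply hdet
        rw [h]; simp
      have := norm_pos_iff.2 this
      positivity
    have hdd : (0 : ℝ) < 4 * ‖α‖ ^ 2 * ‖β‖ ^ 2 - (2 * (α.re * β.re + α.im * β.im)) ^ 2 := by
      have e : 4 * ‖α‖ ^ 2 * ‖β‖ ^ 2 - (2 * (α.re * β.re + α.im * β.im)) ^ 2 =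
          4 * (α.re * β.im - α.im * β.re) ^ 2 := by
        rw [← Complex.normSq_eq_norm_sq, ← Complex.normSq_eq_norm_sq, Complex.normSq_apply,
          Complex.normSq_apply]
        ring
      rw [e]
      have : 0 < (α.re * β.im - α.im * β.re) ^ 2 := by positivity
      linarith
    have hdisc' := hdisc hdet
    choose! fx fy hfx hfy hf using hG
    have key : c₀ * G.card * min 1 (Real.sqrt (Real.log D / Real.log G.card)) ≤
        (P.offDiag.image (fun u => dist u.1 u.2)).card := by
      rcases le_total M N with hMN | hNM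
      · obtain ⟨f, hfdef⟩ : ∃ f : ℂ → ℤ × ℤ, f = fun g => ((fx g : ℤ), (fy g : ℤ)) := ⟨_, rfl⟩
        have hfg : ∀ g ∈ G, g = o + ((f g).1 : ℂ) * α + ((f g).2 : ℂ) * β := by
          intro g hg
          have := hf g hg
          rw [hfdef]
          simp only [Int.cast_natCast]
          exact this
        have hinj : Set.InjOn f G := by
          intro a ha b hb hab
          rw [hfg a ha, hfg b hb, hab]
        have hcard : (G.image f).card = G.card := Finset.card_image_of_injOn hinj
        have hbox : G.image f ⊆ box N M := by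
          intro v hv
          obtain ⟨g, hg, rfl⟩ := Finset.mem_image.1 hv
          unfold Pool.Agent.Helper37.DG.box
          rw [hfdef]
          simp only [Finset.mem_product, Finset.mem_Ico]
          have h1 := hfx g hg
          have h2 := hfy g hg
          refine ⟨⟨by positivity, by exact_mod_cast h1⟩, ⟨by positivity, by exact_mod_cast h2⟩⟩
        have h1 := hmain (‖α‖ ^ 2) (2 * (α.re * β.re + α.im * β.im)) (‖β‖ ^ 2) D N M (G.image f)
          hA hdd hD hdisc' hMN hbox (by rw [hcard]; exact hdens) (by rw [hcard]; exact hG2)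
        rw [hcard] at h1
        refine le_trans h1 ?_
        exact_mod_cast fnl_count o α β P G hGP f hfg
      · obtain ⟨f, hfdef⟩ : ∃ f : ℂ → ℤ × ℤ, f = fun g => ((fy g : ℤ), (fx g : ℤ)) := ⟨_, rfl⟩
        have hfg : ∀ g ∈ G, g = o + ((f g).1 : ℂ) * β + ((f g).2 : ℂ) * α := by
          intro g hg
          have := hf g hg
          rw [hfdef]
          simp only [Int.cast_natCast]
          rw [add_right_comm]
          exact this
        have hinj : Set.InjOn f G := by
          intro a ha b hb hab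
          rw [hfg a ha, hfg b hb, hab]
        have hcard : (G.image f).card = G.card := Finset.card_image_of_injOn hinj
        have hbox : G.image f ⊆ box M N := by
          intro v hv
          obtain ⟨g, hg, rfl⟩ := Finset.mem_image.1 hv
          unfold Pool.Agent.Helper37.DG.box
          rw [hfdef]
          simp only [Finset.mem_product, Finset.mem_Ico]
          have h1 := hfx g hg
          have h2 := hfy g hg
          refine ⟨⟨by positivity, by exact_mod_cast h2⟩, ⟨by positivity, by exact_mod_cast h1⟩⟩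
        have hdd' : (0 : ℝ) < 4 * ‖β‖ ^ 2 * ‖α‖ ^ 2 - (2 * (β.re * α.re + β.im * α.im)) ^ 2 := by
          have e : 4 * ‖β‖ ^ 2 * ‖α‖ ^ 2 - (2 * (β.re * α.re + β.im * α.im)) ^ 2 =
            4 * ‖α‖ ^ 2 * ‖β‖ ^ 2 - (2 * (α.re * β.re + α.im * β.im)) ^ 2 := by ring
          rw [e]; exact hdd
        have hdisc'' : ∀ (t : ℝ) (a b c : ℤ), ‖β‖ ^ 2 = t * a →
            2 * (β.re * α.re + β.im * α.im) = t * b → ‖α‖ ^ 2 = t * c →
            D < 4 * a * c - b ^ 2 := by
          intro t a b c e1 e2 e3
          have h := hdisc' t c b a e3 (by rw [← e2]; ring) e1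
          have e4 : (4 * (c : ℝ) * a - (b : ℝ) ^ 2) = 4 * (a : ℝ) * c - (b : ℝ) ^ 2 := by ring
          rw [e4] at h
          exact h
        have h1 := hmain (‖β‖ ^ 2) (2 * (β.re * α.re + β.im * α.im)) (‖α‖ ^ 2) D M N (G.image f)
          hB hdd' hD hdisc'' hNM hbox (by rw [hcard, mul_comm (N : ℝ)]; exact hdens)
          (by rw [hcard]; exact hG2)
        rw [hcard] at h1
        refine le_trans h1 ?_
        exact_mod_cast fnl_count o β α P G hGP f hfg
    refine le_trans ?_ key
    refine mul_le_mul_of_nonneg_right ?_ hm0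
    exact mul_le_mul_of_nonneg_right (min_le_left _ _) hG0

end Pool.Agent.Helper44.UG
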