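import Pool.Agent.Helper47.UG.Stmts

set_option autoImplicit false

/-!
Module UPT of the project UG: upper bound sieve in a residue class of the box of differences.
-/

namespace Pool.Agent.Helper44.UG

open Finset
open scoped Classical
open Pool.Agent.Helper37.DG (sbox hit Free sw)
open Pool.Agent.Helper47.UG

/-- a residue class in `[-M, M]` -/
theorem upt_class (M e : ℕ) (c : ℤ) (he : 1 ≤ e) (heM : e ≤ M) :
    (((Finset.Icc (-(M : ℤ)) (M : ℤ)).filter (fun y => (e : ℤ) ∣ y - c)).card : ℝ) ≤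
      3 * M / e := by
  have he0 : (0 : ℤ) < (e : ℤ) := by exact_mod_cast he
  have h1 : ((Finset.Icc (-(M : ℤ)) (M : ℤ)).filter (fun y => (e : ℤ) ∣ y - c)).card ≤
      (Finset.Icc (0 : ℤ) ((2 * M / e : ℕ) : ℤ)).card := by
    apply Finset.card_le_card_of_injOn (fun y => (y + M) / (e : ℤ))
    · intro y hy
      obtain ⟨hy1, -⟩ := Finset.mem_filter.1 (Finset.mem_coe.1 hy)
      rw [Finset.mem_Icc] at hy1
      rw [Finset.mem_coe, Finset.mem_Icc]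
      show 0 ≤ (y + M) / (e : ℤ) ∧ (y + M) / (e : ℤ) ≤ ((2 * M / e : ℕ) : ℤ)
      constructor
      · apply Int.ediv_nonneg
        · linarith
        · exact he0.le
      · push_cast
        exact Int.ediv_le_ediv he0 (by linarith)
    · intro y hy y' hy' h
      obtain ⟨-, k, hk⟩ := Finset.mem_filter.1 (Finset.mem_coe.1 hy)
      obtain ⟨-, k', hk'⟩ := Finset.mem_filter.1 (Finset.mem_coe.1 hy')
      have h' : (y + M) / (e : ℤ) = (y' + M) / (e : ℤ) := h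
      have e1 : y + M = (c + M) + e * k := by linarith
      have e2 : y' + M = (c + M) + e * k' := by linarith
      rw [e1, e2, Int.add_mul_ediv_left _ _ he0.ne', Int.add_mul_ediv_left _ _ he0.ne'] at h'
      have e3 : k = k' := by linarith
      rw [e3] at e1
      linarith
  have h2 : (Finset.Icc (0 : ℤ) ((2 * M / e : ℕ) : ℤ)).card = 2 * M / e + 1 := by
    rw [Int.card_Icc, sub_zero]
    generalize 2 * M / e = q
    omega
  rw [h2] at h1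
  have h3 : (((2 * M / e : ℕ) : ℕ) : ℝ) ≤ ((2 * M : ℕ) : ℝ) / e := Nat.cast_div_le
  have heR : (0 : ℝ) < (e : ℝ) := by exact_mod_cast he
  have h4 : (1 : ℝ) ≤ (M : ℝ) / e := by
    rw [le_div_iff₀ heR, one_mul]; exact_mod_cast heM
  have h5 : (((Finset.Icc (-(M : ℤ)) (M : ℤ)).filter (fun y => (e : ℤ) ∣ y - c)).card : ℝ) ≤
      ((2 * M / e : ℕ) : ℝ) + 1 := by exact_mod_cast h1
  have h6 : 3 * (M : ℝ) / e = 2 * (M : ℝ) / e + (M : ℝ) / e := by ring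
  push_cast at h3
  rw [h6]
  linarith

/-- one horizontal line -/
theorem upt_line (b : ℕ) (C0 : ℝ)
    (h : ∀ (z X Q a : ℕ) (P : Finset ℕ) (Ω : (l : ℕ) → Finset (ZMod l)), 2 ≤ z → 1 ≤ Q →
      z ^ b * Q ≤ X →
      (∀ l ∈ P, l.Prime ∧ 7 ≤ l ∧ l ≤ z ∧ (Ω l).card ≤ 3 ∧ ¬ l ∣ Q) →
      ∀ S : Finset ℕ, (∀ k ∈ S, k ≤ X ∧ k % Q = a % Q ∧ ∀ l ∈ P, (k : ZMod l) ∉ Ω l) →
      (S.card : ℝ) ≤ C0 * ((X : ℝ) / Q) * Real.exp (-∑ l ∈ P, ((Ω l).card : ℝ) / l))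
    (j : ℕ → ℤ) (N z Q : ℕ) (A : Finset ℕ) (r y : ℤ) (hz : 2 ≤ z) (hQ : 1 ≤ Q)
    (hzQ : z ^ b * Q ≤ N) (hA : ∀ p ∈ A, p.Prime ∧ 7 ≤ p ∧ p ≤ z ∧ ¬ p ∣ Q)
    (V : Finset (ℤ × ℤ)) (hV : ∀ v ∈ V, v.2 = y ∧ -(N : ℤ) ≤ v.1 ∧ v.1 ≤ N ∧
      (Q : ℤ) ∣ v.1 - r ∧ Free j A v) :
    (V.card : ℝ) ≤ C0 * ((2 * N : ℝ) / Q) * sw A := by
  have hQ0 : (0 : ℤ) < (Q : ℤ) := by exact_mod_cast hQ
  have hcast : ∀ v ∈ V, (((v.1 + (N : ℤ)).toNat : ℕ) : ℤ) = v.1 + N := by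
    intro v hv
    obtain ⟨-, h1, -⟩ := hV v hv
    rw [Int.toNat_of_nonneg (by linarith)]
  have hcard : (V.image (fun v => (v.1 + (N : ℤ)).toNat)).card = V.card := by
    apply Finset.card_image_of_injOn
    intro v hv w hw hvw
    have hv' := Finset.mem_coe.1 hv
    have hw' := Finset.mem_coe.1 hw
    have e : (((v.1 + (N : ℤ)).toNat : ℕ) : ℤ) = (((w.1 + (N : ℤ)).toNat : ℕ) : ℤ) := by
      exact_mod_cast hvw
    rw [hcast v hv', hcast w hw'] at e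
    have e1 : v.1 = w.1 := by linarith
    have e2 : v.2 = w.2 := by rw [(hV v hv').1, (hV w hw').1]
    exact Prod.ext e1 e2
  have key := h z (2 * N) Q (((r + N) % (Q : ℤ)).toNat) A
    (fun l => {(((N : ℤ) - j l * y : ℤ) : ZMod l)}) hz hQ (by omega)
    (fun l hl => ⟨(hA l hl).1, (hA l hl).2.1, (hA l hl).2.2.1,
      by rw [Finset.card_singleton]; norm_num, (hA l hl).2.2.2⟩)
    (V.image (fun v => (v.1 + (N : ℤ)).toNat)) ?_
  · rw [hcard] at key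
    have e1 : ∑ l ∈ A, ((({(((N : ℤ) - j l * y : ℤ) : ZMod l)} : Finset (ZMod l)).card : ℕ) : ℝ) / l =
        ∑ l ∈ A, 1 / (l : ℝ) := by
      apply Finset.sum_congr rfl
      intro l _
      rw [Finset.card_singleton, Nat.cast_one]
    rw [e1] at key
    unfold sw
    push_cast at key
    exact key
  · intro k hk
    obtain ⟨v, hv, hvk⟩ := Finset.mem_image.1 hk
    obtain ⟨h1, h2, h3, h4, h5⟩ := hV v hv
    have hk' : (k : ℤ) = v.1 + N := by rw [← hvk]; exact hcast v hv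
    refine ⟨by omega, ?_, ?_⟩
    · have ha : ((((r + N) % (Q : ℤ)).toNat : ℕ) : ℤ) = (r + N) % (Q : ℤ) :=
        Int.toNat_of_nonneg (Int.emod_nonneg _ (ne_of_gt hQ0))
      have h6 : ((k % Q : ℕ) : ℤ) = (((((r + N) % (Q : ℤ)).toNat) % Q : ℕ) : ℤ) := by
        have h8 : (v.1 + (N : ℤ)) % (Q : ℤ) = (r + N) % (Q : ℤ) := by
          apply Int.emod_eq_emod_iff_emod_sub_eq_zero.2
          apply Int.emod_eq_zero_of_dvd
          have : v.1 + (N : ℤ) - (r + N) = v.1 - r := by ring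
          rw [this]; exact h4
        rw [Int.natCast_mod, Int.natCast_mod, hk', ha, h8, Int.emod_emod_of_dvd _ (dvd_refl _)]
      exact_mod_cast h6
    · intro l hl hmem
      rw [Finset.mem_singleton] at hmem
      have e1 : (((k : ℤ)) : ZMod l) = (((N : ℤ) - j l * y : ℤ) : ZMod l) := by
        rw [← hmem]; simp
      rw [hk', ZMod.intCast_eq_intCast_iff_dvd_sub] at e1
      apply h5 l hl
      unfold hit
      have e2 : v.1 + j l * v.2 = -((N : ℤ) - j l * y - (v.1 + N)) := by rw [h1]; ring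
      rw [e2]
      exact (dvd_neg).2 e1

theorem st_UPT (h2 : Pool.Agent.Helper17.SO.ST_SAP) : ST_UPT := by
  obtain ⟨b, C0, hb, hC0, hS⟩ := h2
  refine ⟨b, 6 * C0, hb, by linarith, ?_⟩
  intro j N M z e A v₀ hM hMN hz he heM hzN hA
  have heR : (0 : ℝ) < (e : ℝ) := by exact_mod_cast he
  have hsw : 0 < sw A := Real.exp_pos _
  -- the lines
  let Y : Finset ℤ := (Finset.Icc (-(M : ℤ)) (M : ℤ)).filter (fun y => (e : ℤ) ∣ y - v₀.2)
  let V : ℤ → Finset (ℤ × ℤ) := fun y =>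
    (sbox N M).filter (fun v => v.2 = y ∧ (e : ℤ) ∣ v.1 - v₀.1 ∧ Free j A v)
  have hsub : (sbox N M).filter (fun v => (e : ℤ) ∣ v.1 - v₀.1 ∧ (e : ℤ) ∣ v.2 - v₀.2 ∧
      Free j A v) ⊆ Y.biUnion (fun y => V y) := by
    intro v hv
    obtain ⟨hv1, hv2, hv3, hv4⟩ := Finset.mem_filter.1 hv
    rw [Finset.mem_biUnion]
    refine ⟨v.2, ?_, ?_⟩
    · rw [Finset.mem_filter]
      refine ⟨?_, hv3⟩
      unfold sbox at hv1
      exact (Finset.mem_product.1 hv1).2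
    · rw [Finset.mem_filter]
      exact ⟨hv1, rfl, hv2, hv4⟩
  have hcard : ((sbox N M).filter (fun v => (e : ℤ) ∣ v.1 - v₀.1 ∧ (e : ℤ) ∣ v.2 - v₀.2 ∧
      Free j A v)).card ≤ ∑ y ∈ Y, (V y).card :=
    le_trans (Finset.card_le_card hsub) Finset.card_biUnion_le
  have hline : ∀ y ∈ Y, ((V y).card : ℝ) ≤ C0 * ((2 * N : ℝ) / e) * sw A := by
    intro y _
    apply upt_line b C0 hS j N z e A v₀.1 y hz he hzN hA
    intro v hv
    obtain ⟨hv1, hv2, hv3, hv4⟩ := Finset.mem_filter.1 hv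
    unfold sbox at hv1
    have hv5 := (Finset.mem_product.1 hv1).1
    rw [Finset.mem_Icc] at hv5
    exact ⟨hv2, hv5.1, hv5.2, hv3, hv4⟩
  have hB : 0 ≤ C0 * ((2 * N : ℝ) / e) * sw A := by positivity
  have hfin : (((sbox N M).filter (fun v => (e : ℤ) ∣ v.1 - v₀.1 ∧ (e : ℤ) ∣ v.2 - v₀.2 ∧
      Free j A v)).card : ℝ) ≤ ∑ y ∈ Y, ((V y).card : ℝ) := by exact_mod_cast hcard
  calc (((sbox N M).filter (fun v => (e : ℤ) ∣ v.1 - v₀.1 ∧ (e : ℤ) ∣ v.2 - v₀.2 ∧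
      Free j A v)).card : ℝ) ≤ ∑ y ∈ Y, ((V y).card : ℝ) := hfin
    _ ≤ ∑ _y ∈ Y, C0 * ((2 * N : ℝ) / e) * sw A := Finset.sum_le_sum hline
    _ = (Y.card : ℝ) * (C0 * ((2 * N : ℝ) / e) * sw A) := by
        rw [Finset.sum_const, nsmul_eq_mul]
    _ ≤ (3 * M / e) * (C0 * ((2 * N : ℝ) / e) * sw A) :=
        mul_le_mul_of_nonneg_right (upt_class M e v₀.2 he heM) hB
    _ = 6 * C0 * ((M : ℝ) * N / (e : ℝ) ^ 2) * sw A := by
        field_simp
        ring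

end Pool.Agent.Helper44.UG
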